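import Pool.Agent.H148.SF.BlockInv

/-!
# The slice rank method and sunflowers with at least four petals

The Erdős–Szemerédi sunflower conjecture for three sets follows from the slice rank method of
Naslund and Sawin: for each layer of `2^[n]` there is a function `f` of three sets of the layer,
invariant under the symmetric group `S_n`, which vanishes at the triples for which some point
belongs to exactly two of the sets, does not vanish at the constant triples, and has small slice
rank, because it is a polynomial of degree `n`, less than `3 n / 2`.

We show that there is nothing like this for `r ≥ 4` sets. Let `f` be a function of `r` sets of the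
middle layer of `2^[n]` (or of a layer near the middle) which vanishes at the `r`-tuples for which
some point belongs to at least two, but not to all of the sets, and does not vanish at the constant
tuples.

* If `f` is complex valued and invariant under `S_n` then its slice rank is at least a Catalan number
  which is `2^n / O(n^2)`; so it gives no bound `c^n` with `c < 2`.
* The same conclusion holds if the ground set is divided into `q` blocks of size `4m`, where `m` tends
  to infinity arbitrarily slowly, and `f` is only invariant under the permutations preserving each
  block: the slice rank is at least the `q`-th power of a Catalan number, `2^{(1-o(1)) n}`; here `f`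
  need only be defined for the sets containing half of the points of each block. This applies for
  example to the products of functions of the single points, with `n / (4m)` different factors.
* Without any invariance, over every field in which `2 ≠ 0`: if `f = 1` at the constant tuples then
  every polynomial representing `f` has a monomial whose degree in each of the `r` sets is at least
  `2 ⌊n/4⌋`, so the degree of `f` is at least `2 r ⌊n/4⌋`, and the argument of Croot, Lev and Pach
  gives nothing.

Proof. The form defined by `f` is evaluated at certain products of functions on the 2-subsets of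
blocks of four points, on whose supports there are no sunflower tuples except the constant ones;
these functions are orthogonal to all polynomials of degree less than `n/2` (harmonic). The space of
the harmonic functions has the dimension stated, and by a form of Schur's lemma
(`H148/SF/Harm.lean`) the marginals of the restriction of an invariant form to this space are
multiples of the scalar product; a nonzero form with this property has full slice rank
(`H148/SF/Bound.lean`).
-/

set_option autoImplicit false

namespace Pool.Agent.Results.MP_cfd6ce_co.SliceRankSunflower

open Finset Pool.Agent.H148.SR Pool.Agent.H148.SF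

/-- the `l`-element subsets of `{0, ..., n-1}` -/
abbrev Layer (n l : ℕ) : Type := {A : Finset (Fin n) // A.card = l}

/-- if `f x ≠ 0` then every point belongs to none, one or all of the sets `x j` -/
def SunflowerSupport {F : Type} [Field F] {r n l : ℕ} (f : (Fin r → Layer n l) → F) : Prop :=
  ∀ x, f x ≠ 0 → ∀ i : Fin n,
    (univ.filter fun j => i ∈ (x j : Finset (Fin n))).card = 0 ∨
    (univ.filter fun j => i ∈ (x j : Finset (Fin n))).card = 1 ∨
    (univ.filter fun j => i ∈ (x j : Finset (Fin n))).card = r

/-- `f` is invariant under the permutations of `{0, ..., n-1}` -/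
def Invariant {F : Type} {r n l : ℕ} (f : (Fin r → Layer n l) → F) : Prop :=
  ∀ (π : Equiv.Perm (Fin n)) (x y : Fin r → Layer n l),
    (∀ j, (y j : Finset (Fin n)) = (x j : Finset (Fin n)).map π.toEmbedding) → f y = f x

/-- sets containing half of the points of each of the `q` blocks of `4m` points -/
abbrev Halves (q m : ℕ) : Type := Fin q → {B : Finset (Fin m × Fin 4) // B.card = 2 * m}

/-- if `f x ≠ 0` then every point of every block belongs to none, one or all of the sets -/
def BlockSunflowerSupport {r q m : ℕ} (f : (Fin r → Halves q m) → ℂ) : Prop :=
  ∀ x, f x ≠ 0 → ∀ (b : Fin q) (i : Fin m × Fin 4),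
    (univ.filter fun j => i ∈ (x j b : Finset (Fin m × Fin 4))).card = 0 ∨
    (univ.filter fun j => i ∈ (x j b : Finset (Fin m × Fin 4))).card = 1 ∨
    (univ.filter fun j => i ∈ (x j b : Finset (Fin m × Fin 4))).card = r

/-- `f` is invariant under the permutations preserving each block -/
def BlockInvariant {r q m : ℕ} (f : (Fin r → Halves q m) → ℂ) : Prop :=
  ∀ (π : Fin q → Equiv.Perm (Fin m × Fin 4)) (x y : Fin r → Halves q m),
    (∀ j b, (y j b : Finset (Fin m × Fin 4)) =
      (x j b : Finset (Fin m × Fin 4)).map (π b).toEmbedding) → f y = f x

/-- **No slice rank bound for sunflowers with at least four petals.** -/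
theorem result (r : ℕ) (hr : 4 ≤ r) (n l m : ℕ) (h1 : 2 * m ≤ l) (h2 : l + 2 * m ≤ n) :
    (∀ f : (Fin r → Layer n l) → ℂ, Invariant f → (∀ A, f (fun _ => A) ≠ 0) →
      SunflowerSupport f → ∀ R, SliceRankLE f R →
        catalan (2 * m) ≤ R ∧ 16 ^ m ≤ (4 * m + 1) * (2 * m + 1) * R) ∧
    (∀ (q : ℕ) (f : (Fin r → Halves q m) → ℂ), BlockInvariant f →
      (∀ A, f (fun _ => A) ≠ 0) → BlockSunflowerSupport f → ∀ R, SliceRankLE f R →
        catalan (2 * m) ^ q ≤ R ∧ 16 ^ (m * q) ≤ ((4 * m + 1) * (2 * m + 1)) ^ q * R) ∧
    (∀ (F : Type) [Field F], (2 : F) ≠ 0 → ∀ f : (Fin r → Layer n l) → F,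
      (∀ A, f (fun _ => A) = 1) → SunflowerSupport f → ∀ c : (Fin r → Finset (Fin n)) → F,
      (∀ x, f x = ∑ C, c C * ∏ j, (if C j ⊆ (x j : Finset (Fin n)) then 1 else 0)) →
        ∃ C, c C ≠ 0 ∧ ∀ j, 2 * m ≤ (C j).card) := by
  refine ⟨fun f hinv hdiag hsupp R hR => ?_, fun q f hinv hdiag hsupp R hR => ?_,
    fun F _ h2F f hdiag hsupp c hc => ?_⟩
  · have h := layer_bound r hr n l m h1 h2 f hinv hdiag hsupp R hR
    exact ⟨h, (pow_le_catalan m).trans (Nat.mul_le_mul le_rfl h)⟩
  · have hB : ∃ B : Finset (Fin m × Fin 4), B.card = 2 * m := by
      obtain ⟨B, -, hB⟩ := exists_subset_card_eq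
        (s := (univ : Finset (Fin m × Fin 4))) (n := 2 * m) (by
          rw [card_univ, Fintype.card_prod, Fintype.card_fin, Fintype.card_fin]
          omega)
      exact ⟨B, hB⟩
    obtain ⟨B, hB⟩ := hB
    have h : catalan (2 * m) ^ q ≤ R := by
      refine block_bound hr f ?_ (fun _ => ⟨B, hB⟩) (hdiag _) hsupp R hR
      intro π x
      exact hinv π x _ fun j b => rfl
    refine ⟨h, ?_⟩
    rw [pow_mul]
    refine (Nat.pow_le_pow_left (pow_le_catalan m) q).trans ?_
    rw [mul_pow]
    exact Nat.mul_le_mul le_rfl h
  · exact degree_bound r hr n l m h1 h2 h2F f hdiag hsupp c hc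

end Pool.Agent.Results.MP_cfd6ce_co.SliceRankSunflower
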